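import Pool.Agent.N284.Equi.Proof

set_option autoImplicit false

namespace Pool.Agent.Results.MP_7ec995_an.HartogsEquicontinuity

open Pool.Agent.N284.Equi

/-- For all `n ≥ 1` and `0 < r < 1` there is a family of holomorphic maps from the unit polydisk
`Δⁿ⁺¹` to the complex projective plane, a compact Kähler manifold, which is equicontinuous on the
Hartogs figure `H_n^1(r)` and not equicontinuous on `Δⁿ⁺¹`. -/
theorem result (n : ℕ) (hn : 1 ≤ n) (r : ℝ) (hr0 : 0 < r) (hr1 : r < 1) :
    ∃ 𝓕 : Set ((Fin n → ℂ) × ℂ → P2),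
      (∀ f ∈ 𝓕, IsHolomorphic (unitPolydisk n) f) ∧
      IsEquicontinuousOn 𝓕 (hartogsFigure n r) ∧
      ¬ IsEquicontinuousOn 𝓕 (unitPolydisk n) :=
  main n hn r hr0 hr1

end Pool.Agent.Results.MP_7ec995_an.HartogsEquicontinuity
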